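import Mathlib
import Pool.Agent.Helper1_PGH.Defs

/-!
# Branched towers

Steps of towers of function fields, given by rational functions `x l` (`l < n`) and finite sets
`A l` of values, with a condition on the germs of curves which take one of these values with
multiplicity one and which do not meet a hypersurface of bounded degree.
-/

set_option autoImplicit false

universe u

open MvPolynomial PGH

namespace Pool.Agent.BranchedTowers

/-- **The condition on germs of curves.**  `M` is a field with `κ : k → M`, the `x l` are elements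
of `M`, the `A l` finite subsets of `k`, and `H` is a polynomial.  A germ of a curve is given by a
function field `E` of one variable over `k`, a place `P` of `E` and a homomorphism `φ` over `k` from
a subring `R` of `M` which contains `κ k`, `T` and the `x l` to `E`.  The condition is that, whenever
all nonzero elements of `T` which belong to `F` have nonzero finite values at `P`, the `x l` have
finite values at `P` and `H (x)` does not vanish at `P`, and `x l` takes at `P` a value in `A l` with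
multiplicity one, some `x m`, `m ≠ l`, takes at `P` a value in `A m`. -/
def Germs {k M : Type u} [Field k] [Field M] (κ : k →+* M) (F T : Set M) {n : ℕ}
    (x : Fin n → M) (A : Fin n → Finset k) (H : MvPolynomial (Fin n) k) : Prop :=
  ∀ {E : Type u} [Field E] [Algebra k E] [FF k E] (R : Subring M) (hκ : ∀ c, κ c ∈ R)
    (hx : ∀ l, x l ∈ R) (hT : ∀ t ∈ T, t ∈ R) (φ : R →+* E),
    (∀ c, φ ⟨κ c, hκ c⟩ = algebraMap k E c) → ∀ P : Place k E,
    (∀ t (ht : t ∈ T), t ∈ F → t ≠ 0 → P.Ge 0 (φ ⟨t, hT t ht⟩) ∧ ¬ P.Ge 1 (φ ⟨t, hT t ht⟩)) →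
    (∀ l, P.Ge 0 (φ ⟨x l, hx l⟩)) → ¬ P.Ge 1 (aeval (fun l => φ ⟨x l, hx l⟩) H) →
    ∀ l, ∀ a ∈ A l, P.ord (φ ⟨x l, hx l⟩ - algebraMap k E a) = 1 →
      ∃ m, m ≠ l ∧ ∃ b ∈ A m, P.Ge 1 (φ ⟨x m, hx m⟩ - algebraMap k E b)

/-- The sets `A l` are large: either `n = 2` and both have at least `N₀ 2` elements, or
`A l = {a l j : j < N}` where `N ≥ N₀ n` and `Φ n N (a) ≠ 0`. -/
def Large (N₀ : ℕ → ℕ) (Φ : ∀ n N : ℕ, MvPolynomial (Fin n × Fin N) ℤ) {k : Type*} [Field k]
    {n : ℕ} (A : Fin n → Finset k) : Prop :=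
  (n = 2 ∧ ∀ l, N₀ n ≤ (A l).card) ∨
    ∃ (N : ℕ) (a : Fin n → Fin N → k), N₀ n ≤ N ∧ (∀ l, (A l : Set k) = Set.range (a l)) ∧
      aeval (fun p : Fin n × Fin N => a p.1 p.2) (Φ n N) ≠ 0

/-- `H` is a nonzero polynomial of degree at most `e` in each variable. -/
def DegLe (e : ℕ) {k : Type*} [Field k] {n : ℕ} (H : MvPolynomial (Fin n) k) : Prop :=
  H ≠ 0 ∧ ∀ l, degreeOf l H ≤ e

/-- A step from the subfield `F` to the subfield `F'` of `M`. -/
structure Step (e : ℕ) (N₀ : ℕ → ℕ) (Φ : ∀ n N : ℕ, MvPolynomial (Fin n × Fin N) ℤ)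
    {k M : Type u} [Field k] [Field M] (κ : k →+* M) (F F' : Subfield M) : Prop where
  le : F ≤ F'
  step : ∃ (n : ℕ) (x : Fin n → M) (A : Fin n → Finset k) (H : MvPolynomial (Fin n) k)
    (T : Set M), DegLe e H ∧ Large N₀ Φ A ∧ T.Finite ∧ Germs κ (F : Set M) T x A H ∧
    (∀ p : MvPolynomial (Fin n) k, eval₂ κ x p = 0 → p = 0) ∧
    ∀ w ∈ F', IsAlgebraic (Subfield.closure ((F : Set M) ∪ Set.range x)) w

/-- **Radicals.**  Relations `w r (x) * ∏ (x l - a) ^ e l a r = b r * z r ^ m r` with `b r ≠ 0` in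
`F` and polynomials `w r` over `k` which divide a power of `H`, such that for each `l` and `a` in
`A l` some exponent `e l a r` is not divisible by `m r`. -/
def Radicals {k M : Type*} [Field k] [Field M] (κ : k →+* M) (F : Set M) {n : ℕ}
    (x : Fin n → M) (A : Fin n → Finset k) (H : MvPolynomial (Fin n) k) : Prop :=
  ∃ (R : ℕ) (e : Fin n → k → Fin R → ℤ) (m : Fin R → ℕ) (b z : Fin R → M)
    (w : Fin R → MvPolynomial (Fin n) k),
    (∀ r, b r ∈ F ∧ b r ≠ 0 ∧ (∃ c, w r ∣ H ^ c) ∧
      eval₂ κ x (w r) * ∏ l, ∏ a ∈ A l, (x l - κ a) ^ e l a r = b r * z r ^ m r) ∧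
    ∀ l, ∀ a ∈ A l, ∃ r, ¬ (m r : ℤ) ∣ e l a r

/-- The data common to the two kinds of quotients of products of curves by finite groups: a finite
group `G` acts on a field `M₀` over `k`, the `B l` are `G`-stable function fields of curves in `M₀`,
the `y l` in `B l` are fixed by `G`; for `c` in `k` outside the set `S l` of at most `e` elements,
either all zeros of `y l - c` in the curve are simple (and then `c` is not in `A l`) or none (and
then `c` is in `A l` if there is a zero at all); the field of invariants is embedded in `M` over `k`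
and `x l` is the image of `y l`.  `I l` is the set of the curves on which the action determines the
element of the group. -/
def Quotients (e : ℕ) {k M : Type u} [Field k] [Field M] (κ : k →+* M) {n : ℕ}
    (x : Fin n → M) (A : Fin n → Finset k) (I : Fin n → Set (Fin n)) : Prop :=
  ∃ (M₀ G : Type u) (_ : Field M₀) (_ : Algebra k M₀) (_ : Group G) (_ : Finite G)
    (_ : MulSemiringAction G M₀) (_ : SMulCommClass G k M₀) (B : Fin n → IntermediateField k M₀)
    (y : ∀ l, B l) (S : Fin n → Finset k) (j : FixedPoints.subfield G M₀ →+* M),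
    (∀ l, FF k (B l)) ∧ (∀ l, ∀ g : G, ∀ z ∈ B l, g • z ∈ B l) ∧
    (∀ l, ∀ g : G, (∀ m ∈ I l, ∀ z ∈ B m, g • z = z) → g = 1) ∧
    (∀ l, ∀ g : G, g • (y l : M₀) = y l) ∧
    (∀ l, (S l).card ≤ e) ∧
    (∀ l, ∀ c ∉ S l, (∃ v : Place k (B l), 2 ≤ v.ord (y l - algebraMap k (B l) c)) → c ∈ A l) ∧
    (∀ l, ∀ c ∉ S l, c ∈ A l → ∀ v : Place k (B l), v.ord (y l - algebraMap k (B l) c) ≠ 1) ∧
    (∀ (c : k) (h : algebraMap k M₀ c ∈ FixedPoints.subfield G M₀), j ⟨algebraMap k M₀ c, h⟩ = κ c) ∧
    ∀ (l : Fin n) (h : (y l : M₀) ∈ FixedPoints.subfield G M₀), j ⟨y l, h⟩ = x l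

end Pool.Agent.BranchedTowers
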