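import Mathlib
import Pool.Agent.Helper3_PQE.Defs
import Pool.Agent.Helper3_PPE.Stmts
import Pool.Agent.Helper3_PQX.Stmts

/-!
# Squad PQE: statements

The statements of the squad PQX with an exceptional hypersurface `H (x) = 0` of degree at most `e`
in each coordinate.
-/

set_option autoImplicit false

universe u

open MvPolynomial PGH PGL

namespace Pool.Agent.PQE

open BranchedTowers

/-- the condition on germs, for algebras -/
def GermsA {k M : Type u} [Field k] [Field M] [Algebra k M] (F T : Set M) {n : ℕ}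
    (x : Fin n → M) (A : Fin n → Finset k) (H : MvPolynomial (Fin n) k) : Prop :=
  ∀ {E : Type u} [Field E] [Algebra k E] [FF k E] (S : Subalgebra k M), T ⊆ (S : Set M) →
    (∀ l, x l ∈ S) → ∀ (φ : S →ₐ[k] E) (P : Place k E),
    (∀ t ∈ T, t ∈ F → t ≠ 0 → P.Ge 0 (ev φ t) ∧ ¬ P.Ge 1 (ev φ t)) →
    (∀ l, P.Ge 0 (ev φ (x l))) → ¬ P.Ge 1 (aeval (fun l => ev φ (x l)) H) →
    ∀ l, ∀ a ∈ A l, P.ord (ev φ (x l) - algebraMap k E a) = 1 →
      ∃ m, m ≠ l ∧ ∃ b ∈ A m, P.Ge 1 (ev φ (x m) - algebraMap k E b)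

/-- HGB: bounded heights from the pattern (see `PQX.H39.hgb`, `PPZ.H6.hga`) -/
def HgbStmt (e : ℕ) : Prop :=
  ∀ {k E : Type u} [Field k] [Field E] [Algebra k E] [IsAlgClosed k] [CharZero k] [CharZero E]
    [FF k E] (D : Derivation ℤ E E), (∀ w, D w = 0 ↔ ∃ c : k, algebraMap k E c = w) →
    ∀ (cp : Place k E → ℕ) (sc : Finset (Place k E)), PPX.Bp D cp sc →
    ∀ {N₁ N₂ R : ℕ} (x z : E) (a : Fin N₁ → k) (b : Fin N₂ → k) (c : Fin R → E)
      (F H : MvPolynomial (Fin 2) k),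
    20 * (e + 1) ≤ N₁ → 20 * (e + 1) ≤ N₂ → Function.Injective a → Function.Injective b →
    (∀ i, x ≠ algebraMap k E (a i)) → (∀ j, z ≠ algebraMap k E (b j)) →
    (∀ l, degreeOf l H ≤ e) → aeval ![x, z] H ≠ 0 →
    (∀ P : Place k E, (∀ r, P.ord (c r) = 0) → P.Ge 0 x → P.Ge 0 z →
      ¬ P.Ge 1 (aeval ![x, z] H) →
      (∀ i, P.ord (x - algebraMap k E (a i)) = 1 → ∃ j, P.Ge 1 (z - algebraMap k E (b j))) ∧
      (∀ j, P.ord (z - algebraMap k E (b j)) = 1 → ∃ i, P.Ge 1 (x - algebraMap k E (a i)))) →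
    PPE.ExcA (20 * (e + 1)) a b F → aeval ![x, z] F ≠ 0 →
    ht k x + ht k z ≤ 10 * (∑ P ∈ sc, cp P) + 10 * ∑ r, 2 * ht k (c r)

/-- GPZ: good elements, two coordinates (see `PQX.GpzStmt`) -/
def GpzStmt (e : ℕ) : Prop :=
  ∃ N₀ : ℕ, ∀ {k M : Type u} [Field k] [Field M] [Algebra k M] [IsAlgClosed k] [CharZero k]
    (F₀ F T : Set M) (x : Fin 2 → M) (A : Fin 2 → Finset k) (H : MvPolynomial (Fin 2) k),
    (∀ l, N₀ ≤ (A l).card) → DegLe e H →
    AlgebraicIndependent k x → T.Finite → (∀ w ∈ F, GoodEl2 k F₀ w) → GermsA F T x A H →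
    ∀ l, GoodEl2 k F₀ (x l)

/-- JET: as `PN.JetStmt`, with an arbitrary reserve -/
def JetStmt : Prop :=
  ∀ n, 2 ≤ n → ∃ k m m' : ℕ, 1 ≤ k ∧ 1 ≤ m' ∧ ∀ t : ℕ, ∃ B : ℕ, m + (6 + n) * m' + 1 + t ≤ B ∧
    ∃ N₀ : ℕ, ∀ N, N₀ ≤ N → B ≤ N * m' ∧
    ∃ F : MvPolynomial ((Fin n × Fin N) ⊕ Fin n) ℤ, F ≠ 0 ∧
    ∀ {E : Type u} [Field E] [CharZero E] (a : Fin n → Fin N → E) (x : Fin n → PowerSeries E),
      (∀ l, PowerSeries.coeff 1 (x l) ≠ 0) → (∀ l j, PowerSeries.coeff 0 (x l) ≠ a l j) →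
      (∀ Q : PN.Pol n N k, PN.Cls.{u} m' (N * m' - B) m Q → PN.evP a x Q = 0) →
      aeval (Sum.elim (fun p => a p.1 p.2) (fun l => PowerSeries.coeff 0 (x l))) F = 0

/-- HGT: as `PN.HgtStmt`, with the reserve `t` -/
def HgtStmt : Prop :=
  ∀ {k E : Type u} [Field k] [IsAlgClosed k] [CharZero k] [Field E] [CharZero E] [Algebra k E]
    [FF k E] (D : Derivation ℤ E E) (cp : Place k E → ℕ) (sc sb : Finset (Place k E)),
    (∀ c : k, D (algebraMap k E c) = 0) →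
    (∀ P ∉ sc, cp P = 0) → (∀ P, DGe P D (-(cp P : ℤ))) →
    ∀ (n N q m' B m t : ℕ) (a : Fin n → Fin N → k) (x : Fin n → E),
    (∀ l, Function.Injective (a l)) → (∀ l, D (x l) ≠ 0) →
    (∀ P ∉ sb, (∀ l, P.Ge 0 (x l)) → ∀ l j, P.ord (x l - algebraMap k E (a l j)) = 1 →
      ∃ l' j', (l', j') ≠ (l, j) ∧ P.Ge 1 (x l' - algebraMap k E (a l' j'))) →
    m + (6 + n) * m' + 1 + t ≤ B → B ≤ N * m' →
    ∀ Q : PN.Pol n N q, PN.Cls.{u} m' (N * m' - B) m Q →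
    PN.evP (fun l j => algebraMap k E (a l j)) (fun l => PN.hs D (x l)) Q ≠ 0 →
    (1 + t) * ∑ l, (ht k (x l) : ℤ) ≤ (2 * m + 4 * n * m') * ∑ P ∈ sc, (cp P : ℤ) + m' * sb.card

/-- GPN: good elements, general position (see `PQX.GpnStmt`) -/
def GpnStmt (e : ℕ) : Prop :=
  ∃ (N₀ : ℕ → ℕ) (Φ : ∀ n N : ℕ, MvPolynomial (Fin n × Fin N) ℤ),
    (∀ n N, N₀ n ≤ N → Φ n N ≠ 0) ∧
    ∀ {k M : Type u} [Field k] [Field M] [Algebra k M] [IsAlgClosed k] [CharZero k]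
      (F₀ F T : Set M) (n N : ℕ) (x : Fin n → M) (A : Fin n → Finset k)
      (a : Fin n → Fin N → k) (H : MvPolynomial (Fin n) k), N₀ n ≤ N → AlgebraicIndependent k x →
      (∀ l, (A l : Set k) = Set.range (a l)) → DegLe e H →
      aeval (fun p : Fin n × Fin N => a p.1 p.2) (Φ n N) ≠ 0 → T.Finite →
      (∀ w ∈ F, GoodEl2 k F₀ w) → GermsA F T x A H → ∀ l, GoodEl2 k F₀ (x l)

/-- RAD: radicals satisfy the condition on germs (see `PQX.H76.rad`) -/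
def RadStmt : Prop :=
  ∀ {k M : Type u} [Field k] [IsAlgClosed k] [CharZero k] [Field M] [Algebra k M] (F : Set M)
    {n : ℕ} (x : Fin n → M) (A : Fin n → Finset k) (H : MvPolynomial (Fin n) k),
    AlgebraicIndependent k x → H ≠ 0 →
    Radicals (algebraMap k M) F x A H → ∃ T : Set M, T.Finite ∧ GermsA F T x A H

/-- QPL: the pattern for a lifting package (see `PQX.H47.qpl`), with exceptional values -/
def QplStmt : Prop :=
  ∀ {k M Γ R S E E' : Type u} [Field k] [IsAlgClosed k] [CharZero k] [Field M] [Algebra k M]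
    [Group Γ] [Finite Γ] [MulSemiringAction Γ M] [SMulCommClass Γ k M]
    [CommRing R] [CommRing S] [Algebra k R] [Algebra k S] [Algebra R S] [IsScalarTower k R S]
    [MulSemiringAction Γ S] [SMulCommClass Γ R S] [Algebra.IsInvariant R S Γ]
    [Algebra.FiniteType R S] [Algebra S M] [IsScalarTower k S M]
    {n : ℕ} (B : Fin n → IntermediateField k M) [∀ l, FF k (B l)]
    (hB : ∀ l, ∀ γ : Γ, ∀ z ∈ B l, γ • z ∈ B l)
    [Field E] [Algebra k E] [FF k E] [Field E'] [Algebra E E'] [Algebra k E']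
    [IsScalarTower k E E'] [FiniteDimensional E E'] [IsGalois E E']
    (φ : R →ₐ[k] E) (_ : LiftPack (S := S) B hB φ E') (y : ∀ l, B l) (r : Fin n → R)
    (A X : Fin n → Finset k),
    (∀ l, ∀ γ : Γ, (∀ m, m ≠ l → ∀ z ∈ B m, γ • z = z) → γ = 1) →
    (∀ l, ∀ γ : Γ, γ • (y l : M) = y l) →
    (∀ l, Transcendental k (y l)) →
    (∀ l, ∀ c ∉ X l, (∃ v : Place k (B l), 2 ≤ v.ord (y l - algebraMap k (B l) c)) → c ∈ A l) →
    (∀ l, ∀ c ∉ X l, c ∈ A l → ∀ v : Place k (B l), v.ord (y l - algebraMap k (B l) c) ≠ 1) →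
    (∀ l, algebraMap S M (algebraMap R S (r l)) = y l) →
    ∀ P : Place k E, (∀ l, P.Ge 0 (φ (r l))) →
      (∀ l, ∀ c ∈ X l, ¬ P.Ge 1 (φ (r l) - algebraMap k E c)) → ∀ l, ∀ a ∈ A l,
      P.ord (φ (r l) - algebraMap k E a) = 1 →
      ∃ m, m ≠ l ∧ ∃ b ∈ A m, P.Ge 1 (φ (r m) - algebraMap k E b)

/-- QUO: quotients of products of curves satisfy the condition on germs (see `PQX.H17.quo`) -/
def QuoStmt (e : ℕ) : Prop :=
  ∀ {k M : Type u} [Field k] [IsAlgClosed k] [CharZero k] [Field M] [Algebra k M]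
    {n : ℕ} (x : Fin n → M) (A : Fin n → Finset k), AlgebraicIndependent k x →
    Quotients e (algebraMap k M) x A (fun l => {m | m ≠ l}) →
    ∃ (T : Set M) (H : MvPolynomial (Fin n) k), T.Finite ∧ DegLe e H ∧
      ∀ F : Set M, GermsA F T x A H

end Pool.Agent.PQE
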