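import Pool.Agent.Helper3_PQE.Fin
import Pool.Agent.Helper3_PPE.Ass
import Pool.Agent.Helper3_PQX.Ass
import Pool.Agent.Helper13_PQE.Qpl
import Pool.Agent.Helper21_PQE.Quo
import Pool.Agent.Helper39_PQE.Hgb
import Pool.Agent.Helper52_PQE.Gpn
import Pool.Agent.Helper86_PQE.Gpz
import Pool.Agent.Helper87_PQE.Jet
import Pool.Agent.Helper90_PQE.Rad
import Pool.Agent.Helper94_PQE.Hgt

/-!
# Squad PQE: assembly
-/

universe u

open PGH PGL Pool.Agent.PN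

namespace Pool.Agent.PQE.H3

theorem jet0 : PQE.JetStmt.{u} :=
  H87.jet exi (H71.clo (H21.cld H39.dgr) H21.cln H11.clm) (H69.spa H77.det) H69.spn
    H65.ver H77.coe

theorem hgt0 : PQE.HgtStmt.{u} := PQE.H94.hgt H64.evp (H64.evn H81.hsd) PQX.H3.cnt0

theorem gpn0 (e : ℕ) : PQE.GpnStmt.{u} e := PQE.H52.gpn e jet0 hgt0 PQX.H3.cnt0 H13.dRat

theorem gpz0 (e : ℕ) : PQE.GpzStmt.{u} e :=
  PQE.H86.gpz e (PQE.H39.hgb e) (PPE.H3.hxx (20 * (e + 1)))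

theorem quo0 (e : ℕ) : PQE.QuoStmt.{u} e := PQE.H21.quo PQE.H13.qpl e

end Pool.Agent.PQE.H3
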