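import Mathlib
import Pool.Agent.Helper3_PQE.Stmts
import Pool.Agent.Helper50_PN.Main

/-!
# Squad PQE: the final theorem, from the statements of the squad
-/

set_option autoImplicit false

universe u

open CategoryTheory AlgebraicGeometry MvPolynomial PGH PGL

namespace Pool.Agent.BranchedTowers

/-- A step given by radicals. -/
structure RadicalStep (e : ℕ) (N₀ : ℕ → ℕ) (Φ : ∀ n N : ℕ, MvPolynomial (Fin n × Fin N) ℤ)
    {k M : Type u} [Field k] [Field M] (κ : k →+* M) (F F' : Subfield M) : Prop where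
  le : F ≤ F'
  step : ∃ (n : ℕ) (x : Fin n → M) (A : Fin n → Finset k) (H : MvPolynomial (Fin n) k),
    DegLe e H ∧ Large N₀ Φ A ∧ Radicals κ (F : Set M) x A H ∧
    (∀ p : MvPolynomial (Fin n) k, eval₂ κ x p = 0 → p = 0) ∧
    ∀ w ∈ F', IsAlgebraic (Subfield.closure ((F : Set M) ∪ Set.range x)) w

/-- A step given by a quotient of a product of curves by a finite group; for each `l` only the
identity acts trivially on all the other curves. -/
structure QuotientStep (e : ℕ) (N₀ : ℕ → ℕ) (Φ : ∀ n N : ℕ, MvPolynomial (Fin n × Fin N) ℤ)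
    {k M : Type u} [Field k] [Field M] (κ : k →+* M) (F F' : Subfield M) : Prop where
  le : F ≤ F'
  step : ∃ (n : ℕ) (x : Fin n → M) (A : Fin n → Finset k), Large N₀ Φ A ∧
    Quotients e κ x A (fun l => {m | m ≠ l}) ∧
    (∀ p : MvPolynomial (Fin n) k, eval₂ κ x p = 0 → p = 0) ∧
    ∀ w ∈ F', IsAlgebraic (Subfield.closure ((F : Set M) ∪ Set.range x)) w

/-- The field `M` is algebraic over the field generated by the coordinates of a quotient of a
product of at least two curves by a finite group which acts faithfully on each curve, and each of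
the sets `A l` has at least `N` elements. -/
def CurveQuotient (e N : ℕ) {k M : Type u} [Field k] [Field M] (κ : k →+* M) : Prop :=
  ∃ (n : ℕ) (x : Fin n → M) (A : Fin n → Finset k), 2 ≤ n ∧ (∀ l, N ≤ (A l).card) ∧
    Quotients e κ x A (fun l => {l}) ∧ (∀ p : MvPolynomial (Fin n) k, eval₂ κ x p = 0 → p = 0) ∧
    ∀ w : M, IsAlgebraic (Subfield.closure (Set.range κ ∪ Set.range x)) w

end Pool.Agent.BranchedTowers

namespace Pool.Agent.PQE.H3

open BranchedTowers

/-- the two forms of the condition on germs -/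
theorem eqv {k M : Type u} [Field k] [Field M] [Algebra k M] (F T : Set M) {n : ℕ}
    (x : Fin n → M) (A : Fin n → Finset k) (H : MvPolynomial (Fin n) k) :
    Germs (algebraMap k M) F T x A H ↔ GermsA F T x A H := by
  constructor
  · intro h E _ _ _ S hTS hxS φ P hT hx hH l a ha h1
    have hT' : ∀ t ∈ T, t ∈ S.toSubring := fun t ht => hTS ht
    have hx' : ∀ l, x l ∈ S.toSubring := hxS
    have hκ : ∀ c, algebraMap k M c ∈ S.toSubring := fun c => S.algebraMap_mem c
    have he : ∀ l, ev φ (x l) = (φ : S →+* E) ⟨x l, hx' l⟩ := fun l => ev_mem φ (hxS l)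
    obtain ⟨m, hm, b, hb, hb1⟩ := h S.toSubring hκ hx' hT' (φ : S →+* E)
      (fun c => φ.commutes c) P (by
        intro t ht htF ht0
        have h2 := hT t ht htF ht0
        rw [ev_mem φ (hTS ht)] at h2
        exact h2) (by
        intro l
        have h2 := hx l
        rw [he l] at h2
        exact h2) (by
        simp only [he] at hH
        exact hH) l a ha (by
        have h2 := h1
        rw [he l] at h2
        exact h2)
    refine ⟨m, hm, b, hb, ?_⟩
    rw [he m]
    exact hb1
  · intro h E _ _ _ R hκ hx hT φ hφ P hTP hxP hH l a ha h1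
    let S : Subalgebra k M := { R with algebraMap_mem' := hκ }
    let ψ : S →ₐ[k] E := { φ with commutes' := hφ }
    have hev : ∀ (t : M) (ht : t ∈ R), ev ψ t = φ ⟨t, ht⟩ := fun t ht => ev_mem ψ (show t ∈ S from ht)
    obtain ⟨m, hm, b, hb, hb1⟩ := h S (fun t ht => hT t ht) hx ψ P (by
        intro t ht htF ht0
        rw [hev t (hT t ht)]
        exact hTP t ht htF ht0) (by
        intro l
        rw [hev _ (hx l)]
        exact hxP l) (by
        have he : (fun l => ev ψ (x l)) = fun l => φ ⟨x l, hx l⟩ := funext fun l => hev _ (hx l)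
        rw [he]
        exact hH) l a ha (by
        rw [hev _ (hx l)]
        exact h1)
    refine ⟨m, hm, b, hb, ?_⟩
    rw [hev _ (hx m)] at hb1
    exact hb1

theorem indep {k M : Type u} [Field k] [Field M] [Algebra k M] {n : ℕ} (x : Fin n → M)
    (h : ∀ p : MvPolynomial (Fin n) k, eval₂ (algebraMap k M) x p = 0 → p = 0) :
    AlgebraicIndependent k x := by
  rw [algebraicIndependent_iff]
  exact h

/-- towers of steps which preserve good elements -/
theorem main_gen (St : ∀ {k M : Type u} [Field k] [Field M], (k →+* M) → Subfield M →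
      Subfield M → Prop)
    (h1 : ∀ (k M : Type u) [Field k] [Field M] [Algebra k M] [IsAlgClosed k] [CharZero k]
      (F₀ : Set M) (F F' : Subfield M), St (algebraMap k M) F F' →
      (∀ a ∈ F, GoodEl2 k F₀ a) → ∀ a ∈ F', GoodEl2 k F₀ a)
    (h2 : Fin2BStmt.{u}) (h3 : GAlgStmt.{u}) {k : Type u} [Field k] [IsAlgClosed k] [CharZero k]
    {X : Scheme.{u}} (f : X ⟶ Spec (.of k)) [IsIntegral X] [IsSeparated f]
    [LocallyOfFiniteType f] [QuasiCompact f] :
    (Relation.ReflTransGen (St (constants k f)) (constants k f).fieldRange ⊤ → IsPGH k f) ∧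
    (∀ {Y : Scheme.{u}} (q : Y ⟶ Spec (.of k)) [IsIntegral Y] (g : X ⟶ Y) [IsDominant g],
      g ≫ q = f → IsPGH k q →
      Relation.ReflTransGen (St (constants k f)) (pullbackField g).fieldRange ⊤ → IsPGH k f) := by
  let _ : Algebra k X.functionField := (constants k f).toAlgebra
  refine ⟨fun h => ?_, fun {Y} q _ g _ hgq hY h => ?_⟩
  · have hgood : ∀ a : X.functionField, GoodEl2 k (∅ : Set X.functionField) a := fun a =>
      PN.good2_of_tower (k := k) (fun F₀ F F' hs => h1 k X.functionField F₀ F F' hs) h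
        (by rintro _ ⟨c, rfl⟩; exact (h3 k X.functionField _).2.1 c) a trivial
    refine isPGH_of_fields k f X.functionField (RingEquiv.refl _) (fun c => rfl) ?_
    intro A hA
    obtain ⟨T, hT, hh⟩ := h2 k X.functionField _ hgood A hA
    refine ⟨T, hT, fun d hd hd0 hTR E _ _ _ P x => ?_⟩
    refine (hh d hd hd0 hTR E P x (fun _ => 0)).subset ?_
    intro φ hφ
    exact ⟨hφ, fun r hr => absurd hr.2 (Set.notMem_empty _)⟩
  · have hgood : ∀ a : X.functionField,
        GoodEl2 k (Set.range (fun b => RingEquiv.refl _ (pullbackField g b))) a := fun a =>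
      PN.good2_of_tower (k := k) (fun F₀ F F' hs => h1 k X.functionField F₀ F F' hs) h
        (by rintro _ ⟨b, rfl⟩; exact (h3 k X.functionField _).1 _ ⟨b, rfl⟩) a trivial
    exact isPGH_of_fields_rel k f q g hgq hY X.functionField (RingEquiv.refl _) (fun c => rfl)
      (h2 k X.functionField _ hgood)

theorem abs_pair (e : ℕ) {k M : Type u} [Field k] [Field M] (κ : k →+* M) {n : ℕ}
    (x : Fin n → M) (A : Fin n → Finset k) (h : Quotients e κ x A (fun l => {l}))
    (i : Fin 2 → Fin n) : Quotients e κ (x ∘ i) (A ∘ i) (fun l => {m | m ≠ l}) := by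
  obtain ⟨M₀, G, i1, i2, i3, i4, i5, i6, B, y, S, j, h1, h2, h3, h4, h5, h6, h7, h8, h9⟩ := h
  refine ⟨M₀, G, i1, i2, i3, i4, i5, i6, fun l => B (i l), fun l => y (i l), fun l => S (i l), j,
    fun l => h1 (i l), fun l => h2 (i l), ?_, fun l => h4 (i l), fun l => h5 (i l),
    fun l => h6 (i l), fun l => h7 (i l), h8, fun l => h9 (i l)⟩
  intro l g hg
  obtain ⟨m, hm⟩ : ∃ m : Fin 2, m ≠ l := by
    fin_cases l
    · exact ⟨1, by decide⟩
    · exact ⟨0, by decide⟩
  refine h3 (i m) g ?_
  intro m' hm'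
  rw [Set.mem_singleton_iff] at hm'
  subst hm'
  exact hg m hm

/-- the final theorem, from the statements of the squad -/
theorem main_of (e : ℕ) (h0 : GpnStmt.{u} e) (h1 : GpzStmt.{u} e) (hr : RadStmt.{u})
    (hq : QuoStmt.{u} e) (h2 : Fin2BStmt.{u}) (h3 : GAlgStmt.{u}) :
    ∃ (N₀ : ℕ → ℕ) (Φ : ∀ n N : ℕ, MvPolynomial (Fin n × Fin N) ℤ),
      (∀ n N, N₀ n ≤ N → Φ n N ≠ 0) ∧
      ∀ {k : Type u} [Field k] [IsAlgClosed k] [CharZero k],
      (∀ {X : Scheme.{u}} (f : X ⟶ Spec (.of k)) [IsIntegral X] [IsSeparated f]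
        [LocallyOfFiniteType f] [QuasiCompact f],
      (Relation.ReflTransGen (Step e N₀ Φ (constants k f)) (constants k f).fieldRange ⊤ →
        IsPGH k f) ∧
      (∀ {Y : Scheme.{u}} (q : Y ⟶ Spec (.of k)) [IsIntegral Y] (g : X ⟶ Y) [IsDominant g],
        g ≫ q = f → IsPGH k q →
        Relation.ReflTransGen (Step e N₀ Φ (constants k f)) (pullbackField g).fieldRange ⊤ →
        IsPGH k f) ∧
      (CurveQuotient e (N₀ 2) (constants k f) → IsPGH k f)) ∧
      ∀ {M : Type u} [Field M] (κ : k →+* M) (F F' : Subfield M),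
        RadicalStep e N₀ Φ κ F F' ∨ QuotientStep e N₀ Φ κ F F' → Step e N₀ Φ κ F F' := by
  obtain ⟨N₁, Φ, hΦ, hP⟩ := h0
  obtain ⟨N₂, hX⟩ := h1
  refine ⟨fun n => max (N₁ n) N₂, Φ, fun n N h => hΦ n N ((le_max_left _ _).trans h), ?_⟩
  intro k _ _ _
  refine ⟨?_, ?_⟩
  · intro X f _ _ _ _
    obtain ⟨ha, hb⟩ := main_gen (fun {k M} [Field k] [Field M] κ F F' =>
      Step e (fun n => max (N₁ n) N₂) Φ κ F F') (by
        intro k M _ _ _ _ _ F₀ F F' hs hF w hw
        obtain ⟨n, x, A, H, T, hH, hL, hT, hG, hi, halg⟩ := hs.step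
        have hG' : GermsA (F : Set M) T x A H := (eqv (F : Set M) T x A H).1 @hG
        have hx : ∀ l, GoodEl2 k F₀ (x l) := by
          rcases hL with ⟨rfl, hc⟩ | ⟨N, a, hN, hA, ha⟩
          · exact hX F₀ (F : Set M) T x A H (fun l => (le_max_right _ _).trans (hc l)) hH
              (indep x hi) hT hF @hG'
          · exact hP F₀ (F : Set M) T n N x A a H ((le_max_left _ _).trans hN) (indep x hi) hA hH
              ha hT hF @hG'
        refine (h3 k M F₀).2.2 ((F : Set M) ∪ Set.range x) ?_ w (halg w hw)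
        rintro y (hy | ⟨l, rfl⟩)
        · exact hF y hy
        · exact hx l) h2 h3 f
    refine ⟨ha, hb, ?_⟩
    rintro ⟨n, x, A, hn, hA, hQ, hi, halg⟩
    let _ : Algebra k X.functionField := (constants k f).toAlgebra
    have hind : AlgebraicIndependent k x := indep x hi
    have hx : ∀ l, GoodEl2 k (∅ : Set X.functionField) (x l) := by
      intro l
      obtain ⟨m, hm⟩ : ∃ m : Fin n, m ≠ l := by
        have : Nontrivial (Fin n) := Fin.nontrivial_iff_two_le.2 hn
        exact exists_ne l
      have he : Function.Injective (![l, m] : Fin 2 → Fin n) := by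
        intro a b hab
        fin_cases a <;> fin_cases b
        · rfl
        · exact absurd hab.symm hm
        · exact absurd hab hm
        · rfl
      obtain ⟨T, H, hT, hH, hG⟩ := hq (x ∘ ![l, m]) (A ∘ ![l, m]) (hind.comp _ he)
        (abs_pair e _ x A hQ ![l, m])
      have hG' : GermsA (∅ : Set X.functionField) T (x ∘ ![l, m]) (A ∘ ![l, m]) H := @hG ∅
      exact hX (∅ : Set X.functionField) ∅ T (x ∘ ![l, m]) (A ∘ ![l, m]) H
        (fun i => (le_max_right _ _).trans (hA _)) hH (hind.comp _ he) hT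
        (fun w hw => absurd hw (Set.notMem_empty _)) @hG' 0
    have hgood : ∀ w : X.functionField, GoodEl2 k (∅ : Set X.functionField) w := by
      intro w
      refine (h3 k X.functionField ∅).2.2 _ ?_ w (halg w)
      rintro y (⟨c, rfl⟩ | ⟨l, rfl⟩)
      · exact (h3 k X.functionField ∅).2.1 c
      · exact hx l
    refine isPGH_of_fields k f X.functionField (RingEquiv.refl _) (fun c => rfl) ?_
    intro A' hA'
    obtain ⟨T, hT, hh⟩ := h2 k X.functionField _ hgood A' hA'
    refine ⟨T, hT, fun d hd hd0 hTR E _ _ _ P x => ?_⟩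
    refine (hh d hd hd0 hTR E P x (fun _ => 0)).subset ?_
    intro φ hφ
    exact ⟨hφ, fun r hr => absurd hr.2 (Set.notMem_empty _)⟩
  · intro M _ κ F F' h
    let _ : Algebra k M := κ.toAlgebra
    rcases h with h | h
    · obtain ⟨n, x, A, H, hH, hL, hR, hi, halg⟩ := h.step
      obtain ⟨T, hT, hG⟩ := hr (F : Set M) x A H (indep x hi) hH.1 hR
      have hG' : GermsA (F : Set M) T x A H := @hG
      exact ⟨h.le, n, x, A, H, T, hH, hL, hT, (eqv (F : Set M) T x A H).2 @hG', hi, halg⟩
    · obtain ⟨n, x, A, hL, hR, hi, halg⟩ := h.step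
      obtain ⟨T, H, hT, hH, hG⟩ := hq x A (indep x hi) hR
      have hG' : GermsA (F : Set M) T x A H := @hG (F : Set M)
      exact ⟨h.le, n, x, A, H, T, hH, hL, hT, (eqv (F : Set M) T x A H).2 @hG', hi, halg⟩

end Pool.Agent.PQE.H3
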