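import Mathlib
import Pool.Agent.Helper97_PGH.TowerDefs
import Pool.Agent.Helper11_PGL.Asm
import Pool.Agent.Helper40_PGL.GAlg
import Pool.Agent.Helper50_PN.Tow
import Pool.Agent.Helper50_PN.Asm

open CategoryTheory AlgebraicGeometry PGH PGL Pool.Agent.PN

universe u

/-!
# Covers of products of lines with many branch fibres

There are a function `N₀ : ℕ → ℕ`, non-zero polynomials `Φ n N` with integer coefficients in the
`n * N` variables `a l j` (`N ≥ N₀ n`) and non-zero polynomials `Ψ N` with rational coefficients in
`N` variables with the following property.  Let `k` be algebraically closed of characteristic zero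
and `X` a variety over `k`.  A fibre step `F ≤ F'` between subfields of `k(X)` is given by elements
`x l` of `k(X)` (`l < n`), algebraically independent over `k`, such that `F'` is algebraic over the
field generated by `F` and the `x l`, by distinct elements `a l j` of `k` (`j < N l`) for each of
the coordinates, and by finitely many relations `∏ (x l - a l j) ^ e l j = b * z ^ m` with `b` in
`F` such that for each single `(l, j)` one of the exponents `e l j` is not divisible by the
corresponding `m` (all fibres are branch fibres), where

* either `n` is arbitrary, all the `N l` are equal to one `N ≥ N₀ n`, and `Φ n N (a) ≠ 0`,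
* or `n = 2`, `N 0` and `N 1` are at least `N₀ 2`, the `a 0 j` are arbitrary distinct elements, and
  `Ψ (N 1) (a 1) ≠ 0`.

If `k(X)` is reached from `k`, or from the function field of a pseudo-geometrically hyperbolic `Y`
dominated by `X`, by finitely many fibre steps, then `X` is pseudo-geometrically hyperbolic.
-/

/-
Superseded by the hand-in BranchedTowers.  Its claim was:
Proves: There are N0: N -> N, nonzero Phi_(n,N) in Z[a_lj; l <= n, j <= N] (N >= N0(n)) and Psi_N in Q[t_1..t_N] such that for k algebraically closed of char 0 and X a variety over k: if k(X) is reached by finitely many steps F <= F' from k, or from k(Y) for a dominant k-morphism X -> Y, Y integral and pseudo-geometrically hyperbolic (PGH), then X is PGH. Step (subfields of k(X)): x_1..x_n in k(X), algebraically independent over k, F' algebraic over F(x_1..x_n); distinct a_lj in k (j <= N_l); finitely many relations prod_(l,j) (x_l - a_lj)^(e_lj) = b z^m, b != 0 in F, such that for each (l,j) some e_lj is not divisible by its m; either all N_l = N >= N0(n) and Phi_(n,N)(a) != 0, or n = 2, N_1, N_2 >= N0(2) and Psi_(N_2)(a_21, a_22, ..) != 0.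
Definitions: IsPGH: the problem's, points as sections; constants: k->k(X); pullbackField g: k(Y)->k(X); Step: ProdStep or PairTowers.Step, the two cases above.
Relation: Partial answer to Q1 (general type implies PGH), any dimension: varieties generically finite over (P^1)^n, ramified over each of N >= N0(n) general fibres of each projection, e.g. z^2 = prod f_l(x_l), towers of them; F1(x0,x1) = F2(x2,x3) in P^3, F1 any separable form, F2 general (general type: a remark, not in Lean). Nearest work I know: Roulleau-Rousseau, Campana-Darondeau-Rousseau, Grivaux-Restrepo Velasquez-Rousseau, Cadorel-Rousseau-Taji; Siu, Demailly-El Goul, Paun, Diverio-Merker-Rousseau; McQuillan.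
-/

namespace Pool.Agent.Results.MP_5b1cbc_ag.ProductTowers

theorem result :
    ∃ (N₀ : ℕ → ℕ) (Φ : ∀ n N : ℕ, MvPolynomial (Fin n × Fin N) ℤ)
      (Ψ : ∀ N, MvPolynomial (Fin N) ℚ), (∀ n N, N₀ n ≤ N → Φ n N ≠ 0) ∧ (∀ N, Ψ N ≠ 0) ∧
      ∀ {k : Type u} [Field k] [IsAlgClosed k] [CharZero k] {X : Scheme.{u}}
        (f : X ⟶ Spec (.of k)) [IsIntegral X] [IsSeparated f] [LocallyOfFiniteType f]
        [QuasiCompact f],
      (Relation.ReflTransGen (ProductTowers.Step N₀ Φ Ψ (constants k f))
        (constants k f).fieldRange ⊤ → IsPGH k f) ∧
      ∀ {Y : Scheme.{u}} (q : Y ⟶ Spec (.of k)) [IsIntegral Y] (g : X ⟶ Y) [IsDominant g],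
        g ≫ q = f → IsPGH k q →
        Relation.ReflTransGen (ProductTowers.Step N₀ Φ Ψ (constants k f))
          (pullbackField g).fieldRange ⊤ → IsPGH k f :=
  PN.main_of PN.step PPX.stp2 PPX.H3.gpe0 (fin2B asmB) gAlg

end Pool.Agent.Results.MP_5b1cbc_ag.ProductTowers
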