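import Pool.Agent.Helper3_PQE.Quo
import Pool.Agent.Helper3_PQE.Ass

/-!
# Squad PQE: the final theorem
-/

set_option autoImplicit false

universe u

open CategoryTheory AlgebraicGeometry MvPolynomial PGH PGL Pool.Agent.PN

namespace Pool.Agent.PQE.H3

open BranchedTowers

theorem main_out (e : ℕ) :
    ∃ (N₀ : ℕ → ℕ) (Φ : ∀ n N : ℕ, MvPolynomial (Fin n × Fin N) ℤ),
      (∀ n N, N₀ n ≤ N → Φ n N ≠ 0) ∧
      ∀ {k : Type u} [Field k] [IsAlgClosed k] [CharZero k],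
      (∀ {X : Scheme.{u}} (f : X ⟶ Spec (.of k)) [IsIntegral X] [IsSeparated f]
        [LocallyOfFiniteType f] [QuasiCompact f],
      (Relation.ReflTransGen (Step e N₀ Φ (constants k f)) (constants k f).fieldRange ⊤ →
        IsPGH k f) ∧
      (∀ {Y : Scheme.{u}} (q : Y ⟶ Spec (.of k)) [IsIntegral Y] (g : X ⟶ Y) [IsDominant g],
        g ≫ q = f → IsPGH k q →
        Relation.ReflTransGen (Step e N₀ Φ (constants k f)) (pullbackField g).fieldRange ⊤ →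
        IsPGH k f) ∧
      (FaithfulQuotient e (N₀ 2) (constants k f) → IsPGH k f)) ∧
      ∀ {M : Type u} [Field M] (κ : k →+* M) (F F' : Subfield M),
        RadicalStep e N₀ Φ κ F F' ∨ GroupStep e N₀ Φ κ F F' → Step e N₀ Φ κ F F' := by
  obtain ⟨N₀, Φ, hΦ, h⟩ := main_of e (gpn0 e) (gpz0 e) PQE.H90.rad (quo0 e) (fin2B asmB) gAlg
  refine ⟨N₀, Φ, hΦ, fun {k} _ _ _ => ?_⟩
  obtain ⟨h1, h2⟩ := h (k := k)
  refine ⟨fun {X} f _ _ _ _ => ⟨(h1 f).1, (h1 f).2.1, fun hq => (h1 f).2.2 ?_⟩,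
    fun {M} _ κ F F' hs => h2 κ F F' ?_⟩
  · obtain ⟨n, x, A, hn, hA, hQ, hi, ha⟩ := hq
    exact ⟨n, x, A, hn, hA, hQ.quotients, hi, ha⟩
  · rcases hs with hs | hs
    · exact Or.inl hs
    · obtain ⟨n, x, A, hL, hQ, hi, ha⟩ := hs.step
      exact Or.inr ⟨hs.le, n, x, A, hL, hQ.quotients, hi, ha⟩

end Pool.Agent.PQE.H3
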