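import Mathlib
import Pool.Agent.Helper3_PQE.Defs

/-!
# Branched towers: quotients of products of curves
-/

set_option autoImplicit false

universe u

open MvPolynomial PGH

namespace Pool.Agent.BranchedTowers

/-- `y` is a function on the curve with function field `B` and `A` is its branch locus, up to at most
`e` values: for `c` outside a set of at most `e` elements of `k`, either all zeros of `y - c` are
simple (and then `c` is not in `A`), or none of them is (and then `c` is in `A`). -/
def BranchLocus (e : ℕ) {k B : Type u} [Field k] [Field B] [Algebra k B] (y : B)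
    (A : Finset k) : Prop :=
  ∃ S : Finset k, S.card ≤ e ∧ ∀ c ∉ S,
    ((∃ v : Place k B, 2 ≤ v.ord (y - algebraMap k B c)) → c ∈ A) ∧
    (c ∈ A → ∀ v : Place k B, v.ord (y - algebraMap k B c) ≠ 1)

/-- A finite group `G` acts on the field `M₀` over `k`, the `B l` are `G`-stable function fields of
curves in `M₀`, an element of `G` which acts trivially on all `B m` with `m` in `I l` is `1`, and the
`y l` in `B l` are fixed by `G` and have the branch loci `A l`, up to at most `e` values. -/
def ProductAction (e : ℕ) {k M₀ : Type u} [Field k] [Field M₀] [Algebra k M₀] (G : Type u)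
    [Group G] [MulSemiringAction G M₀] {n : ℕ} (A : Fin n → Finset k) (I : Fin n → Set (Fin n))
    (B : Fin n → IntermediateField k M₀) (y : ∀ l, B l) : Prop :=
  Finite G ∧ (∀ (g : G) (c : k), g • algebraMap k M₀ c = algebraMap k M₀ c) ∧
    ∀ l, FF k (B l) ∧ (∀ g : G, ∀ z ∈ B l, g • z ∈ B l) ∧
      (∀ g : G, (∀ m ∈ I l, ∀ z ∈ B m, g • z = z) → g = 1) ∧
      (∀ g : G, g • (y l : M₀) = y l) ∧ BranchLocus e (y l) (A l)

/-- The coordinates `x l` in `M` come from a quotient of a product of curves by a finite group: there
are `M₀`, `G`, `B`, `y` as in `ProductAction` and an embedding `j` over `k` of the field of invariants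
of `G` in `M₀` into `M`, which maps `y l` to `x l`. -/
def QuotientCoordinates (e : ℕ) {k M : Type u} [Field k] [Field M] (κ : k →+* M) {n : ℕ}
    (x : Fin n → M) (A : Fin n → Finset k) (I : Fin n → Set (Fin n)) : Prop :=
  ∃ (M₀ G : Type u) (_ : Field M₀) (_ : Algebra k M₀) (_ : Group G) (_ : MulSemiringAction G M₀)
    (B : Fin n → IntermediateField k M₀) (y : ∀ l, B l) (j : FixedPoints.subfield G M₀ →+* M),
    ProductAction e G A I B y ∧
    (∀ (c : k) (w : FixedPoints.subfield G M₀), (w : M₀) = algebraMap k M₀ c → j w = κ c) ∧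
    ∀ (l : Fin n) (w : FixedPoints.subfield G M₀), (w : M₀) = y l → j w = x l

theorem QuotientCoordinates.quotients {e : ℕ} {k M : Type u} [Field k] [Field M] {κ : k →+* M}
    {n : ℕ} {x : Fin n → M} {A : Fin n → Finset k} {I : Fin n → Set (Fin n)}
    (h : QuotientCoordinates e κ x A I) : Quotients e κ x A I := by
  obtain ⟨M₀, G, _, _, _, _, B, y, j, ⟨hfin, hk, hB⟩, hc, hx⟩ := h
  have hs : SMulCommClass G k M₀ := by
    refine ⟨fun g c z => ?_⟩
    rw [Algebra.smul_def, Algebra.smul_def, smul_mul', hk]
  choose S hS using fun l => (hB l).2.2.2.2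
  exact ⟨M₀, G, inferInstance, inferInstance, inferInstance, hfin, inferInstance, hs, B, y, S, j,
    fun l => (hB l).1, fun l => (hB l).2.1, fun l => (hB l).2.2.1, fun l => (hB l).2.2.2.1,
    fun l => (hS l).1, fun l c hc => ((hS l).2 c hc).1, fun l c hc => ((hS l).2 c hc).2,
    fun c h => hc c _ rfl, fun l h => hx l _ rfl⟩

/-- A step given by a quotient of a product of curves by a finite group; for each `l` only the
identity acts trivially on all the other curves. -/
structure GroupStep (e : ℕ) (N₀ : ℕ → ℕ) (Φ : ∀ n N : ℕ, MvPolynomial (Fin n × Fin N) ℤ)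
    {k M : Type u} [Field k] [Field M] (κ : k →+* M) (F F' : Subfield M) : Prop where
  le : F ≤ F'
  step : ∃ (n : ℕ) (x : Fin n → M) (A : Fin n → Finset k), Large N₀ Φ A ∧
    QuotientCoordinates e κ x A (fun l => {m | m ≠ l}) ∧
    (∀ p : MvPolynomial (Fin n) k, eval₂ κ x p = 0 → p = 0) ∧
    ∀ w ∈ F', IsAlgebraic (Subfield.closure ((F : Set M) ∪ Set.range x)) w

/-- The field `M` is algebraic over the field generated by the coordinates of a quotient of a
product of at least two curves by a finite group which acts faithfully on each curve, and each of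
the sets `A l` has at least `N` elements. -/
def FaithfulQuotient (e N : ℕ) {k M : Type u} [Field k] [Field M] (κ : k →+* M) : Prop :=
  ∃ (n : ℕ) (x : Fin n → M) (A : Fin n → Finset k), 2 ≤ n ∧ (∀ l, N ≤ (A l).card) ∧
    QuotientCoordinates e κ x A (fun l => {l}) ∧
    (∀ p : MvPolynomial (Fin n) k, eval₂ κ x p = 0 → p = 0) ∧
    ∀ w : M, IsAlgebraic (Subfield.closure (Set.range κ ∪ Set.range x)) w

end Pool.Agent.BranchedTowers
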